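import Pool.Agent.N303.SJ.Stm

set_option autoImplicit false

/-!
# Project SJ, piece WB: windows of the Bessel type functions
-/

open MeasureTheory Metric Set
open scoped ENNReal RealInnerProductSpace NNReal

namespace Pool.Agent.N853.SJ

open Pool.Agent.N303.SH Pool.Agent.N303.SJ

theorem rpow_split (c : ℕ) (q : ℝ) {r : ℝ} (hr : 0 < r) :
    r ^ (((c : ℝ) + 1) * q / 2) = r ^ (c + 1) * r ^ (sc c * (q - 2)) := by
  rw [← Real.rpow_natCast r (c + 1), ← Real.rpow_add hr]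
  congr 1
  unfold sc
  push_cast
  ring

theorem pow_form (c : ℕ) (q : ℝ) {x r : ℝ} (hx : 0 ≤ x) (hr : 0 < r) :
    x ^ q * r ^ (((c : ℝ) + 1) * q / 2) = (x ^ 2 * r ^ (c + 1)) ^ (q / 2) := by
  rw [Real.mul_rpow (by positivity) (by positivity), ← Real.rpow_natCast x 2,
    ← Real.rpow_natCast r (c + 1), ← Real.rpow_mul hx, ← Real.rpow_mul hr.le]
  congr 2
  · push_cast
    ring
  · push_cast
    ring

theorem t_wb (hU : Pool.Agent.N303.SJ.S_BESU) : Pool.Agent.N303.SJ.S_WB := by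
  intro c hc q hq2 hq4 hγ
  obtain ⟨C0, B0, hC0, hB0, hU⟩ := hU c hc
  obtain ⟨C, hC, hI⟩ := Ic_bd hc hq2 hq4 hγ
  set γ : ℝ := sc c * (q - 2) with hγd
  refine ⟨3 * B0 ^ (q / 2) + 3 ^ γ * C * (2 * C0) ^ (γ - 1), by positivity, fun k T hT => ?_⟩
  have hC0' : 0 < C0 := by linarith
  rcases le_or_gt (C0 * ((k : ℝ) + 1)) (T / 2) with h | h
  · -- far from the turning point
    have h1 : ∫⁻ r in Ioo (T / 2) (3 * T),
        ENNReal.ofReal (‖Ic c k r‖ ^ q * r ^ (((c : ℝ) + 1) * q / 2)) ≤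
        ∫⁻ _r in Ioo (T / 2) (3 * T), ENNReal.ofReal (B0 ^ (q / 2)) := by
      refine setLIntegral_mono' measurableSet_Ioo fun r hr => ?_
      have hr0 : 0 < r := by linarith [hr.1]
      apply ENNReal.ofReal_le_ofReal
      rw [pow_form c q (norm_nonneg _) hr0]
      exact Real.rpow_le_rpow (by positivity) (hU k r (h.trans hr.1.le)) (by linarith)
    refine h1.trans ?_
    rw [setLIntegral_const, Real.volume_Ioo, ← ENNReal.ofReal_mul (by positivity)]
    apply ENNReal.ofReal_le_ofReal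
    have h2 : 0 ≤ 3 ^ γ * C * (2 * C0) ^ (γ - 1) := by positivity
    have h3 : 0 < B0 ^ (q / 2) := by positivity
    nlinarith
  · -- near the turning point
    have h1 : ∫⁻ r in Ioo (T / 2) (3 * T),
        ENNReal.ofReal (‖Ic c k r‖ ^ q * r ^ (((c : ℝ) + 1) * q / 2)) ≤
        ∫⁻ r in Ioo (T / 2) (3 * T), ENNReal.ofReal ((3 * T) ^ γ) *
          ENNReal.ofReal (‖Ic c k r‖ ^ q * r ^ (c + 1)) := by
      refine setLIntegral_mono' measurableSet_Ioo fun r hr => ?_
      have hr0 : 0 < r := by linarith [hr.1]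
      rw [← ENNReal.ofReal_mul (by positivity)]
      apply ENNReal.ofReal_le_ofReal
      rw [rpow_split c q hr0]
      have h2 : r ^ γ ≤ (3 * T) ^ γ := Real.rpow_le_rpow hr0.le hr.2.le (by linarith)
      calc ‖Ic c k r‖ ^ q * (r ^ (c + 1) * r ^ γ) =
          r ^ γ * (‖Ic c k r‖ ^ q * r ^ (c + 1)) := by ring
        _ ≤ _ := mul_le_mul_of_nonneg_right h2 (by positivity)
    refine h1.trans ?_
    rw [lintegral_const_mul' _ _ ENNReal.ofReal_ne_top]
    have h2 : ∫⁻ r in Ioo (T / 2) (3 * T), ENNReal.ofReal (‖Ic c k r‖ ^ q * r ^ (c + 1)) ≤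
        ∫⁻ r in Ioi 0, ENNReal.ofReal (‖Ic c k r‖ ^ q * r ^ (c + 1)) :=
      lintegral_mono_set fun r hr => mem_Ioi.2 (by linarith [hr.1])
    have h3 := h2.trans (hI k)
    refine (mul_le_mul' le_rfl h3).trans ?_
    rw [← ENNReal.ofReal_mul (by positivity)]
    apply ENNReal.ofReal_le_ofReal
    have h4 : T / (2 * C0) ≤ (k : ℝ) + 1 := by
      rw [div_le_iff₀ (by positivity)]
      nlinarith
    have h5 : ((k : ℝ) + 1) ^ (1 - γ) ≤ (T / (2 * C0)) ^ (1 - γ) :=
      Real.rpow_le_rpow_of_nonpos (by positivity) h4 (by linarith)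
    have h6 : (T / (2 * C0)) ^ (1 - γ) = T ^ (1 - γ) * (2 * C0) ^ (γ - 1) := by
      rw [Real.div_rpow hT.le (by positivity), div_eq_mul_inv, ← Real.rpow_neg (by positivity)]
      congr 2
      ring
    have h7 : (3 * T) ^ γ = 3 ^ γ * T ^ γ := Real.mul_rpow (by norm_num) hT.le
    have h8 : T ^ γ * T ^ (1 - γ) = T := by
      rw [← Real.rpow_add hT]
      simp
    rw [h6] at h5
    calc (3 * T) ^ γ * (C * ((k : ℝ) + 1) ^ (1 - γ)) ≤
        (3 * T) ^ γ * (C * (T ^ (1 - γ) * (2 * C0) ^ (γ - 1))) := by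
          refine mul_le_mul_of_nonneg_left (mul_le_mul_of_nonneg_left h5 hC) (by positivity)
      _ = 3 ^ γ * C * (2 * C0) ^ (γ - 1) * (T ^ γ * T ^ (1 - γ)) := by
          rw [h7]
          ring
      _ = 3 ^ γ * C * (2 * C0) ^ (γ - 1) * T := by rw [h8]
      _ ≤ _ := by
          refine mul_le_mul_of_nonneg_right ?_ hT.le
          have : 0 < B0 ^ (q / 2) := by positivity
          linarith

end Pool.Agent.N853.SJ
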